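import Mathlib
import Pool.Agent.Y1.KN.Stm4

/-!
# The numerical part of the bound, with multiplicities (task KN-NUM2)

Adapted from `Pool.Agent.Y710.KN.Num`.
-/

set_option linter.unusedSectionVars false
set_option linter.unusedVariables false

namespace Pool.Agent.Y304.KN

open Real Filter

theorem asy : ∃ g₀ : ℕ, 2 ≤ g₀ ∧ ∀ g : ℕ, g₀ ≤ g →
    1000000 * Real.log (2 * g) ^ 3 ≤ (g : ℝ) ^ (1 / 120 : ℝ) := by
  have h1 := isLittleO_log_rpow_rpow_atTop (3 : ℝ) (show (0 : ℝ) < 1 / 120 by norm_num)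
  have h2 := h1.def (show (0 : ℝ) < 1 / 2000000 by norm_num)
  have h3 : Tendsto (fun g : ℕ => 2 * (g : ℝ)) atTop atTop :=
    tendsto_natCast_atTop_atTop.const_mul_atTop (by norm_num)
  obtain ⟨g₁, hg₁⟩ := eventually_atTop.1 (h3.eventually h2)
  refine ⟨max g₁ 2, le_max_right _ _, fun g hg => ?_⟩
  have h5 := hg₁ g ((le_max_left _ _).trans hg)
  have hg2 : (2 : ℝ) ≤ g := by exact_mod_cast (le_max_right _ _).trans hg
  have hlog : 0 ≤ Real.log (2 * g) := Real.log_nonneg (by linarith)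
  rw [Real.norm_of_nonneg (Real.rpow_nonneg hlog _),
    Real.norm_of_nonneg (Real.rpow_nonneg (by linarith) _)] at h5
  have h6 : Real.log (2 * g) ^ (3 : ℝ) = Real.log (2 * g) ^ 3 := by
    exact_mod_cast Real.rpow_natCast (Real.log (2 * g)) 3
  have h7 : (2 * (g : ℝ)) ^ (1 / 120 : ℝ) ≤ 2 * (g : ℝ) ^ (1 / 120 : ℝ) := by
    rw [Real.mul_rpow (by norm_num) (by linarith)]
    refine mul_le_mul_of_nonneg_right ?_ (Real.rpow_nonneg (by linarith) _)
    calc (2 : ℝ) ^ (1 / 120 : ℝ) ≤ 2 ^ (1 : ℝ) :=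
          Real.rpow_le_rpow_of_exponent_le (by norm_num) (by norm_num)
      _ = 2 := Real.rpow_one 2
  rw [h6] at h5
  linarith

/-- the logarithm of `m = v^6` -/
theorem logv {v : ℝ} (hv : 1 ≤ v) : 1 + 6 * Real.log v ≤ 3 * v := by
  have h1 : Real.log v = Real.log (v / 2) + Real.log 2 := by
    rw [← Real.log_mul (by positivity) (by norm_num)]
    congr 1
    ring
  have h2 := Real.log_le_sub_one_of_pos (show 0 < v / 2 by positivity)
  have h3 := Real.log_two_lt_d9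
  rw [h1]
  linarith

theorem caseB (g m d h e c n : ℕ) (t v Λ L N : ℝ) (hΛ : 1 ≤ Λ) (ht : 1000000 * Λ ^ 3 ≤ t)
    (hgt : (g : ℝ) = t ^ 120) (hv : 1 ≤ v) (hmv : (m : ℝ) = v ^ 6) (hn : 1 ≤ n) (hh : 1 ≤ h)
    (hhd : h ≤ d) (he : 1 ≤ e)
    (hhe : h * d ≤ e * g) (hc : c = e + (d - h)) (hc3 : 3 ≤ c) (hdg : d ≤ g) (hL0 : 0 ≤ L)
    (hL : L ≤ 510 * Λ ^ 3 * v) (hb : (d : ℝ) ≤ 160 * Λ * h)
    (hN1 : N ≤ Pool.Agent.TH170.QE.boundA (m * g) d c L)
    (hN2 : N ≤ (n : ℝ) ^ 2 * h * d / ((e : ℝ) ^ 2 * (v ^ 3 * t ^ 60))) :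
    N ≤ (n : ℝ) ^ 2 * (d / g) * (1 / (t ^ 24 * v ^ 3)) := by
  have hΛ3 : 1 ≤ Λ ^ 3 := one_le_pow₀ hΛ
  have hΛ' : Λ ≤ Λ ^ 3 := le_self_pow₀ hΛ (by norm_num)
  have ht1 : (1000000 : ℝ) ≤ t := by linarith
  have ht0 : 0 < t := by linarith
  have ht1' : 1 ≤ t := by linarith
  have hv0 : 0 < v := by linarith
  have hn' : (1 : ℝ) ≤ n := by exact_mod_cast hn
  have hn2 : (1 : ℝ) ≤ (n : ℝ) ^ 2 := one_le_pow₀ hn'
  have hh' : (1 : ℝ) ≤ h := by exact_mod_cast hh
  have hd' : (1 : ℝ) ≤ d := by exact_mod_cast le_trans hh hhd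
  have he' : (1 : ℝ) ≤ e := by exact_mod_cast he
  have hg' : (0 : ℝ) < g := by rw [hgt]; positivity
  have hΛv : Λ ^ 3 ≤ Λ ^ 3 * v := le_mul_of_one_le_right (by positivity) hv
  have htv : 1000000 * (Λ ^ 3 * v) ≤ t * v := by
    calc 1000000 * (Λ ^ 3 * v) = (1000000 * Λ ^ 3) * v := by ring
      _ ≤ t * v := mul_le_mul_of_nonneg_right ht hv0.le
  have hLv : L ≤ 510 * (Λ ^ 3 * v) := by linarith
  have h1Λv : 1 ≤ Λ ^ 3 * v := hΛ3.trans hΛv
  have hLt : 10 ^ 4 + 10 * L ≤ t * v := by linarith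
  have h53 : 53 * L ≤ t * v := by linarith
  have hLt' : L ≤ t * v := by linarith
  have hΛt : 160 * Λ ≤ t := by linarith
  have hmg : ((m * g : ℕ) : ℝ) = v ^ 6 * t ^ 120 := by
    rw [Nat.cast_mul, hmv, hgt]
  have hmg0 : (0 : ℝ) < ((m * g : ℕ) : ℝ) := by rw [hmg]; positivity
  have hpos : 0 ≤ (d : ℝ) / g * (1 / (t ^ 24 * v ^ 3)) := by positivity
  have hlift : N ≤ (d : ℝ) / g * (1 / (t ^ 24 * v ^ 3)) →
      N ≤ (n : ℝ) ^ 2 * (d / g) * (1 / (t ^ 24 * v ^ 3)) := by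
    intro h
    rw [mul_assoc]
    exact h.trans (le_mul_of_one_le_left hpos hn2)
  rcases le_or_gt (d : ℝ) (t ^ 110) with h110 | h110
  · have hcond : (10 ^ 4 + 10 * L) ^ 2 * L * d ≤ 2 * ((m * g : ℕ) : ℝ) := by
      calc (10 ^ 4 + 10 * L) ^ 2 * L * d ≤ (t * v) ^ 2 * (t * v) * t ^ 110 := by gcongr
        _ = t ^ 113 * v ^ 3 := by ring
        _ ≤ t ^ 120 * v ^ 6 := mul_le_mul (pow_le_pow_right₀ ht1' (by norm_num))
            (pow_le_pow_right₀ hv (by norm_num)) (by positivity) (by positivity)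
        _ = ((m * g : ℕ) : ℝ) := by rw [hmg]; ring
        _ ≤ 2 * ((m * g : ℕ) : ℝ) := by linarith
    rw [Pool.Agent.TH170.QE.boundA, if_pos hcond] at hN1
    apply hlift
    obtain ⟨y, hy⟩ : ∃ y : ℝ, y = 53 * L * d / ((m * g : ℕ) : ℝ) := ⟨_, rfl⟩
    rw [← hy] at hN1
    have hy0 : 0 ≤ y := by rw [hy]; positivity
    rcases le_or_gt (d : ℝ) (t ^ 66) with h66 | h66
    · have hy1 : y ≤ 1 := by
        rw [hy, div_le_one hmg0, hmg]
        calc 53 * L * d ≤ (t * v) * t ^ 66 := by gcongr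
          _ = v ^ 1 * t ^ 67 := by ring
          _ ≤ v ^ 6 * t ^ 120 := mul_le_mul (pow_le_pow_right₀ hv (by norm_num))
            (pow_le_pow_right₀ ht1' (by norm_num)) (by positivity) (by positivity)
      have hs1 : √y ≤ 1 := by
        rw [← Real.sqrt_one]
        exact Real.sqrt_le_sqrt hy1
      have h3 : √y ^ c ≤ √y ^ 3 := pow_le_pow_of_le_one (Real.sqrt_nonneg _) hs1 hc3
      have h4 : 53 * L / m * √y ≤ 1 / (t ^ 24 * v ^ 3) := by
        have h5 : (53 * L / m) ^ 2 * y ≤ (1 / (t ^ 24 * v ^ 3)) ^ 2 := by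
          calc (53 * L / m) ^ 2 * y = (53 * L) ^ 3 * d / (m ^ 2 * ((m * g : ℕ) : ℝ)) := by
                rw [hy]; field_simp
            _ ≤ (t * v) ^ 3 * t ^ 66 / (m ^ 2 * ((m * g : ℕ) : ℝ)) := by gcongr
            _ = (t * v) ^ 3 * t ^ 66 / ((v ^ 6) ^ 2 * (v ^ 6 * t ^ 120)) := by rw [hmg, hmv]
            _ ≤ (1 / (t ^ 24 * v ^ 3)) ^ 2 := by
                rw [div_pow, one_pow, div_le_div_iff₀ (by positivity) (by positivity)]
                calc (t * v) ^ 3 * t ^ 66 * (t ^ 24 * v ^ 3) ^ 2 = v ^ 9 * t ^ 117 := by ring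
                  _ ≤ v ^ 18 * t ^ 120 := mul_le_mul (pow_le_pow_right₀ hv (by norm_num))
                    (pow_le_pow_right₀ ht1' (by norm_num)) (by positivity) (by positivity)
                  _ = 1 * ((v ^ 6) ^ 2 * (v ^ 6 * t ^ 120)) := by ring
        have h6 : (53 * L / m * √y) ^ 2 ≤ (1 / (t ^ 24 * v ^ 3)) ^ 2 := by
          rw [mul_pow, Real.sq_sqrt hy0]
          exact h5
        exact (sq_le_sq₀ (by positivity) (by positivity)).1 h6
      calc N ≤ √y ^ 3 := hN1.trans h3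
        _ = y * √y := by rw [pow_succ, Real.sq_sqrt hy0]
        _ = (53 * L * d / ((m * g : ℕ) : ℝ)) * √y := by rw [← hy]
        _ = (d / g) * (53 * L / m * √y) := by
            rw [Nat.cast_mul]
            have : (m : ℝ) ≠ 0 := by rw [hmv]; positivity
            field_simp
        _ ≤ (d / g) * (1 / (t ^ 24 * v ^ 3)) := by gcongr
    · have hy1 : y ≤ (1 / (t ^ 4 * v ^ 2)) ^ 2 := by
        calc y = 53 * L * d / ((m * g : ℕ) : ℝ) := hy
          _ ≤ (t * v) * t ^ 110 / ((m * g : ℕ) : ℝ) := by gcongr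
          _ = (t * v) * t ^ 110 / (v ^ 6 * t ^ 120) := by rw [hmg]
          _ ≤ (1 / (t ^ 4 * v ^ 2)) ^ 2 := by
              rw [div_pow, one_pow, div_le_div_iff₀ (by positivity) (by positivity)]
              calc (t * v) * t ^ 110 * (t ^ 4 * v ^ 2) ^ 2 = v ^ 5 * t ^ 119 := by ring
                _ ≤ v ^ 6 * t ^ 120 := mul_le_mul (pow_le_pow_right₀ hv (by norm_num))
                    (pow_le_pow_right₀ ht1' (by norm_num)) (by positivity) (by positivity)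
                _ = 1 * (v ^ 6 * t ^ 120) := (one_mul _).symm
      have hs1 : √y ≤ 1 / (t ^ 4 * v ^ 2) := Real.sqrt_le_iff.2 ⟨by positivity, hy1⟩
      have hc' : (96 : ℝ) ≤ c := by
        have h1 : (h : ℝ) * d ≤ e * g := by exact_mod_cast hhe
        have h2 : (c : ℝ) = e + (d - h) := by
          rw [hc]
          push_cast [Nat.cast_sub hhd]
          ring
        have h3 : (d : ℝ) ≤ g := by exact_mod_cast hdg
        have h4 : (h : ℝ) ≤ d := by exact_mod_cast hhd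
        have h5 : (d : ℝ) * d ≤ c * g := by
          rw [h2]
          nlinarith
        have h6 : t ^ 66 * t ^ 66 ≤ (d : ℝ) * d := by gcongr
        have h7 : t ^ 12 * t ^ 120 ≤ c * t ^ 120 := by
          rw [← hgt]
          calc t ^ 12 * (g : ℝ) = t ^ 66 * t ^ 66 := by rw [hgt]; ring
            _ ≤ _ := h6.trans h5
        have h8 : t ^ 12 ≤ c := le_of_mul_le_mul_right h7 (by positivity)
        have h9 : t ^ 1 ≤ t ^ 12 := pow_le_pow_right₀ ht1' (by norm_num)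
        rw [pow_one] at h9
        linarith
      have hc96 : 96 ≤ c := by exact_mod_cast hc'
      have ht4 : 1 / (t ^ 4 * v ^ 2) ≤ 1 := by
        rw [div_le_one (by positivity)]
        exact one_le_mul_of_one_le_of_one_le (one_le_pow₀ ht1') (one_le_pow₀ hv)
      calc N ≤ √y ^ c := hN1
        _ ≤ (1 / (t ^ 4 * v ^ 2)) ^ c := pow_le_pow_left₀ (Real.sqrt_nonneg _) hs1 c
        _ ≤ (1 / (t ^ 4 * v ^ 2)) ^ 96 := pow_le_pow_of_le_one (by positivity) ht4 hc96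
        _ = 1 / (t ^ 384 * v ^ 192) := by rw [div_pow, one_pow, mul_pow, ← pow_mul, ← pow_mul]
        _ ≤ 1 / (t ^ 144 * v ^ 3) := one_div_le_one_div_of_le (by positivity)
            (mul_le_mul (pow_le_pow_right₀ ht1' (by norm_num))
            (pow_le_pow_right₀ hv (by norm_num)) (by positivity) (by positivity))
        _ = (1 / g) * (1 / (t ^ 24 * v ^ 3)) := by
            rw [hgt, one_div_mul_one_div, ← mul_assoc, ← pow_add]
        _ ≤ (d / g) * (1 / (t ^ 24 * v ^ 3)) := by gcongr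
  · refine hN2.trans ?_
    have h1 : (h : ℝ) * d ≤ e * g := by exact_mod_cast hhe
    -- the main inequality
    have h2 : (g : ℝ) ^ 3 ≤ h * d ^ 2 * t ^ 36 := by
      have h3 : (d : ℝ) ≤ t * h := hb.trans (mul_le_mul_of_nonneg_right hΛt (by linarith))
      have h4 : t ^ 110 * t ^ 110 * t ^ 110 ≤ (t * h) * d * d := by gcongr <;> linarith
      have h5 : t ^ 329 ≤ h * d ^ 2 := by
        have h6 : t ^ 329 * t ≤ h * d ^ 2 * t := by
          calc t ^ 329 * t = t ^ 110 * t ^ 110 * t ^ 110 := by ring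
            _ ≤ (t * h) * d * d := h4
            _ = h * d ^ 2 * t := by ring
        exact le_of_mul_le_mul_right h6 ht0
      calc (g : ℝ) ^ 3 = t ^ 360 := by rw [hgt]; ring
        _ ≤ t ^ 365 := pow_le_pow_right₀ ht1' (by norm_num)
        _ = t ^ 329 * t ^ 36 := by ring
        _ ≤ h * d ^ 2 * t ^ 36 := by gcongr
    have h3 : (h : ℝ) * g ≤ e ^ 2 * t ^ 36 := by
      have h4 : (h : ℝ) * g * g ^ 2 ≤ e ^ 2 * t ^ 36 * g ^ 2 := by
        calc (h : ℝ) * g * g ^ 2 = h * g ^ 3 := by ring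
          _ ≤ h * (h * d ^ 2 * t ^ 36) := by gcongr
          _ = (h * d) ^ 2 * t ^ 36 := by ring
          _ ≤ (e * g) ^ 2 * t ^ 36 := by gcongr
          _ = e ^ 2 * t ^ 36 * g ^ 2 := by ring
      exact le_of_mul_le_mul_right h4 (by positivity)
    have h4 : (n : ℝ) ^ 2 * (d / g) * (1 / (t ^ 24 * v ^ 3)) =
        n ^ 2 * d / (g * (t ^ 24 * v ^ 3)) := by
      field_simp
    rw [h4, div_le_div_iff₀ (by positivity) (by positivity)]
    calc (n : ℝ) ^ 2 * h * d * (g * (t ^ 24 * v ^ 3)) = n ^ 2 * d * (h * g) * (t ^ 24 * v ^ 3) := by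
          ring
      _ ≤ n ^ 2 * d * (e ^ 2 * t ^ 36) * (t ^ 24 * v ^ 3) := by gcongr
      _ = n ^ 2 * d * (e ^ 2 * (v ^ 3 * t ^ 60)) := by ring

theorem caseA (g m d h n : ℕ) (v L N : ℝ) (hv : 1 ≤ v) (hmv : (m : ℝ) = v ^ 6) (hn : 1 ≤ n)
    (hh : 1 ≤ h) (hhd : h ≤ d) (hdg : d ≤ g)
    (hL : L ≤ (2 * g + 1) * Real.log (2 * g) + 12 * v) (hL0 : 0 ≤ L)
    (ha : 160 * Real.log (2 * g) * h < d)
    (hP : ∀ P : ℝ, 10 ^ 4 ≤ P → 10 * L ≤ P →
      N ≤ P ^ h * (4 / P + √(2 * d / (Real.pi * (m * g)))) ^ d) :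
    N ≤ 1 / ((g : ℝ) ^ 16 * v ^ 3) := by
  have hg : 1 ≤ g := hh.trans (hhd.trans hdg)
  have hg' : (1 : ℝ) ≤ g := by exact_mod_cast hg
  have hh' : (1 : ℝ) ≤ h := by exact_mod_cast hh
  have hv0 : 0 < v := by linarith
  have hv3 : 1 ≤ v ^ 3 := one_le_pow₀ hv
  have hvv : v ≤ v ^ 3 := le_self_pow₀ hv (by norm_num)
  have hdg' : (d : ℝ) ≤ g := by exact_mod_cast hdg
  have hd0 : (0 : ℝ) < d := by exact_mod_cast hh.trans hhd
  obtain ⟨x, hx⟩ : ∃ x : ℝ, x = 2 * g := ⟨_, rfl⟩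
  have hx2 : 2 ≤ x := by linarith
  rw [← hx] at hL ha
  have hlog0 : 0 ≤ Real.log x := Real.log_nonneg (by linarith)
  have hlogx : Real.log x ≤ x := (Real.log_le_sub_one_of_pos (by linarith)).trans (by linarith)
  have hlogx2 : 1 / 2 ≤ Real.log x := by
    have h1 := Real.log_le_log (by norm_num) hx2
    have h2 := Real.log_two_gt_d9
    linarith
  obtain ⟨P, hPdef⟩ : ∃ P : ℝ, P = 10 ^ 4 * v ^ 3 + 10 * L := ⟨_, rfl⟩
  have hP4 : 10 ^ 4 * v ^ 3 ≤ P := by linarith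
  have hP0 : 0 < P := by
    have : (0 : ℝ) < 10 ^ 4 * v ^ 3 := by positivity
    linarith
  have h1 := hP P (by linarith) (by linarith)
  -- the factor of the exponent `d`
  have hq : 4 / P + √(2 * d / (Real.pi * (m * g))) ≤ 4 / 5 / v ^ 3 := by
    have q1 : 4 / P ≤ (1 / 2500) / v ^ 3 := by
      rw [div_le_div_iff₀ hP0 (by positivity)]
      linarith
    have q2 : √(2 * d / (Real.pi * (m * g))) ≤ (1999 / 2500) / v ^ 3 := by
      refine Real.sqrt_le_iff.2 ⟨by positivity, ?_⟩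
      rw [hmv, div_pow, div_le_div_iff₀ (by positivity) (by positivity)]
      have hpi := Real.pi_gt_d2
      have q3 : (2 : ℝ) * g ≤ (1999 / 2500) ^ 2 * Real.pi * g := by
        refine mul_le_mul_of_nonneg_right ?_ (by linarith)
        linarith
      calc 2 * d * (v ^ 3) ^ 2 ≤ 2 * g * (v ^ 3) ^ 2 := by gcongr
        _ ≤ (1999 / 2500) ^ 2 * Real.pi * g * (v ^ 3) ^ 2 := by gcongr
        _ = (1999 / 2500) ^ 2 * (Real.pi * (v ^ 6 * g)) := by ring
    calc 4 / P + √(2 * d / (Real.pi * (m * g))) ≤ (1 / 2500) / v ^ 3 + (1999 / 2500) / v ^ 3 :=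
          add_le_add q1 q2
      _ = 4 / 5 / v ^ 3 := by ring
  have hq0 : 0 ≤ 4 / P + √(2 * d / (Real.pi * (m * g))) := by positivity
  obtain ⟨k, hk⟩ : ∃ k, d = h + k := ⟨d - h, by omega⟩
  have hk1 : 1 ≤ k := by
    have h2 : (h : ℝ) < d := by nlinarith
    have h3 : h < d := by exact_mod_cast h2
    omega
  have hN1 : N ≤ (P / v ^ 3) ^ h * (4 / 5) ^ d * (1 / v ^ 3) := by
    calc N ≤ P ^ h * (4 / P + √(2 * d / (Real.pi * (m * g)))) ^ d := h1
      _ ≤ P ^ h * (4 / 5 / v ^ 3) ^ d := by gcongr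
      _ = (P / v ^ 3) ^ h * (4 / 5) ^ d * (1 / v ^ 3) ^ k := by
          have r1 : (4 / 5 / v ^ 3) ^ (h + k) =
              ((4 : ℝ) / 5) ^ (h + k) * ((1 / v ^ 3) ^ h * (1 / v ^ 3) ^ k) := by
            rw [← pow_add, ← mul_pow]
            congr 1
            ring
          have r2 : (P / v ^ 3) ^ h = P ^ h * (1 / v ^ 3) ^ h := by
            rw [← mul_pow]
            congr 1
            ring
          rw [hk, r1, r2]
          ring
      _ ≤ (P / v ^ 3) ^ h * (4 / 5) ^ d * (1 / v ^ 3) ^ 1 := by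
          refine mul_le_mul_of_nonneg_left ?_ (by positivity)
          refine pow_le_pow_of_le_one (by positivity) ?_ hk1
          rw [div_le_one (by positivity)]
          exact hv3
      _ = _ := by rw [pow_one]
  -- the bound for P
  have h2 : P / v ^ 3 ≤ x ^ 16 := by
    have h3 : L ≤ ((x + 1) * x + 12) * v ^ 3 := by
      have h4 : (x + 1) * Real.log x ≤ (x + 1) * x :=
        mul_le_mul_of_nonneg_left hlogx (by linarith)
      have h5 : (x + 1) * x ≤ (x + 1) * x * v ^ 3 := le_mul_of_one_le_right (by positivity) hv3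
      linarith
    have h4 : (2 : ℝ) ^ 14 ≤ x ^ 14 := pow_le_pow_left₀ (by norm_num) hx2 14
    have h5 : (x + 1) * x ≤ 3 / 2 * x ^ 2 := by nlinarith
    have h6 : (2 : ℝ) ^ 14 * x ^ 2 ≤ x ^ 16 := by
      calc (2 : ℝ) ^ 14 * x ^ 2 ≤ x ^ 14 * x ^ 2 := by gcongr
        _ = x ^ 16 := by ring
    have h7 : (4 : ℝ) ≤ x ^ 2 := by nlinarith
    rw [div_le_iff₀ (by positivity), hPdef]
    have h8 : 10 ^ 4 + 10 * ((x + 1) * x + 12) ≤ x ^ 16 := by nlinarith
    calc 10 ^ 4 * v ^ 3 + 10 * L ≤ 10 ^ 4 * v ^ 3 + 10 * (((x + 1) * x + 12) * v ^ 3) := by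
          linarith
      _ = (10 ^ 4 + 10 * ((x + 1) * x + 12)) * v ^ 3 := by ring
      _ ≤ x ^ 16 * v ^ 3 := mul_le_mul_of_nonneg_right h8 (by positivity)
  have h3 : (P / v ^ 3) ^ h ≤ Real.exp (16 * Real.log x * h) := by
    calc (P / v ^ 3) ^ h ≤ (x ^ 16) ^ h := pow_le_pow_left₀ (by positivity) h2 h
      _ = Real.exp (16 * Real.log x * h) := by
          rw [← Real.exp_log (show 0 < x by linarith)]
          rw [← Real.exp_nat_mul, ← Real.exp_nat_mul, Real.log_exp]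
          congr 1
          push_cast
          ring
  have h4 : ((4 : ℝ) / 5) ^ d ≤ Real.exp (-(1 / 5) * d) := by
    have h5 : ((4 : ℝ) / 5) ≤ Real.exp (-(1 / 5)) := by
      have h6 := Real.add_one_le_exp (-(1 / 5) : ℝ)
      linarith
    calc ((4 : ℝ) / 5) ^ d ≤ (Real.exp (-(1 / 5))) ^ d := pow_le_pow_left₀ (by norm_num) h5 d
      _ = Real.exp (-(1 / 5) * d) := by
          rw [← Real.exp_nat_mul]
          congr 1
          ring
  have h5 : 16 * Real.log x ≤ (1 / 10) * d := by nlinarith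
  have h6 : (P / v ^ 3) ^ h * (4 / 5) ^ d ≤ 1 / x ^ 16 := by
    calc (P / v ^ 3) ^ h * (4 / 5) ^ d
        ≤ Real.exp (16 * Real.log x * h) * Real.exp (-(1 / 5) * d) := by gcongr
      _ = Real.exp (16 * Real.log x * h + -(1 / 5) * d) := (Real.exp_add _ _).symm
      _ ≤ Real.exp (-(16 * Real.log x)) := by
          apply Real.exp_le_exp.2
          nlinarith
      _ = 1 / x ^ 16 := by
          rw [Real.exp_neg, one_div, ← Real.exp_log (show 0 < x by linarith), ← Real.exp_nat_mul,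
            Real.log_exp]
          norm_num
  calc N ≤ (P / v ^ 3) ^ h * (4 / 5) ^ d * (1 / v ^ 3) := hN1
    _ ≤ 1 / x ^ 16 * (1 / v ^ 3) := mul_le_mul_of_nonneg_right h6 (by positivity)
    _ = 1 / (x ^ 16 * v ^ 3) := by rw [one_div_mul_one_div]
    _ ≤ 1 / ((g : ℝ) ^ 16 * v ^ 3) := by
        apply one_div_le_one_div_of_le (by positivity)
        refine mul_le_mul_of_nonneg_right ?_ (by positivity)
        exact pow_le_pow_left₀ (by linarith) (by linarith) 16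

theorem num2 : Pool.Agent.Y1.KN.P_num2 := by
  obtain ⟨g₀, hg₀2, hg₀⟩ := asy
  have hg₀' : (2 : ℝ) ≤ g₀ := by exact_mod_cast hg₀2
  refine ⟨(g₀ : ℝ) ^ 3, ?_⟩
  intro g m d h e c n Gc N hn hm hh hhd hdg he heh hhe hc hc3 hGc1 hGc2 hb hN hA hK hP
  have hg : 1 ≤ g := hh.trans (hhd.trans hdg)
  have hg' : (1 : ℝ) ≤ g := by exact_mod_cast hg
  have hm' : (1 : ℝ) ≤ m := by exact_mod_cast hm
  have hn' : (1 : ℝ) ≤ n := by exact_mod_cast hn
  have hn2 : (1 : ℝ) ≤ (n : ℝ) ^ 2 := one_le_pow₀ hn'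
  have hd' : (1 : ℝ) ≤ d := by exact_mod_cast hh.trans hhd
  have hh' : (1 : ℝ) ≤ h := by exact_mod_cast hh
  have he' : (1 : ℝ) ≤ e := by exact_mod_cast he
  have hC1 : (1 : ℝ) ≤ (g₀ : ℝ) ^ 3 := one_le_pow₀ (by linarith)
  -- the roots
  obtain ⟨t, ht⟩ : ∃ t : ℝ, t = (g : ℝ) ^ (1 / 120 : ℝ) := ⟨_, rfl⟩
  have hgt : (g : ℝ) = t ^ 120 := by
    rw [ht, ← Real.rpow_natCast, ← Real.rpow_mul (by linarith)]
    norm_num
  have ht1 : 1 ≤ t := by
    rw [ht]
    exact Real.one_le_rpow hg' (by norm_num)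
  have ht0 : 0 < t := by linarith
  have ht36 : (g : ℝ) ^ (3 / 10 : ℝ) = t ^ 36 := by
    rw [ht, ← Real.rpow_natCast, ← Real.rpow_mul (by linarith)]
    norm_num
  obtain ⟨v, hv⟩ : ∃ v : ℝ, v = (m : ℝ) ^ (1 / 6 : ℝ) := ⟨_, rfl⟩
  have hmv : (m : ℝ) = v ^ 6 := by
    rw [hv, ← Real.rpow_natCast, ← Real.rpow_mul (by linarith)]
    norm_num
  have hv1 : 1 ≤ v := by
    rw [hv]
    exact Real.one_le_rpow hm' (by norm_num)
  have hv0 : 0 < v := by linarith
  have hsq : √((m : ℝ) * g) = v ^ 3 * t ^ 60 := by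
    rw [hmv, hgt, show v ^ 6 * t ^ 120 = (v ^ 3 * t ^ 60) ^ 2 by ring]
    exact Real.sqrt_sq (by positivity)
  have hlogm : Real.log m = 6 * Real.log v := by
    rw [hmv, Real.log_pow]
    norm_num
  have htarget : (g : ℝ) ^ (3 / 10 : ℝ) / √((m : ℝ) * g) = 1 / (t ^ 24 * v ^ 3) := by
    rw [ht36, hsq]
    field_simp
  rw [htarget]
  rw [hsq] at hK
  -- the right side is at least `C n² / (g² v³)`
  have hlow : (g₀ : ℝ) ^ 3 * (n : ℝ) ^ 2 / ((g : ℝ) ^ 2 * v ^ 3) ≤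
      (g₀ : ℝ) ^ 3 * (n : ℝ) ^ 2 * (d / g) * (1 / (t ^ 24 * v ^ 3)) := by
    have e1 : (g₀ : ℝ) ^ 3 * (n : ℝ) ^ 2 / ((g : ℝ) ^ 2 * v ^ 3) =
        (g₀ : ℝ) ^ 3 * (n : ℝ) ^ 2 * (1 / g) * (1 / (g * v ^ 3)) := by
      field_simp
    rw [e1]
    have e2 : t ^ 24 ≤ (g : ℝ) := by
      rw [hgt]
      exact pow_le_pow_right₀ ht1 (by norm_num)
    have e3 : 1 / ((g : ℝ) * v ^ 3) ≤ 1 / (t ^ 24 * v ^ 3) := by
      apply one_div_le_one_div_of_le (by positivity)
      exact mul_le_mul_of_nonneg_right e2 (by positivity)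
    have e4 : (1 : ℝ) / g ≤ d / g := div_le_div_of_nonneg_right hd' (by linarith)
    exact mul_le_mul (mul_le_mul_of_nonneg_left e4 (by positivity)) e3 (by positivity)
      (by positivity)
  rcases le_or_gt (m * g) n with hng | hng
  · refine hN.trans (le_trans ?_ hlow)
    rw [le_div_iff₀ (by positivity), one_mul]
    have h1 : (m : ℝ) * g ≤ n := by exact_mod_cast hng
    have h2 : (g : ℝ) ^ 2 * v ^ 3 ≤ (n : ℝ) ^ 2 := by
      calc (g : ℝ) ^ 2 * v ^ 3 ≤ (g : ℝ) ^ 2 * v ^ 12 := by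
            refine mul_le_mul_of_nonneg_left ?_ (by positivity)
            exact pow_le_pow_right₀ hv1 (by norm_num)
        _ = ((m : ℝ) * g) ^ 2 := by rw [hmv]; ring
        _ ≤ (n : ℝ) ^ 2 := by gcongr
    exact h2.trans (le_mul_of_one_le_left (by positivity) hC1)
  rcases lt_or_ge g g₀ with hgg | hgg
  · refine hK.trans (le_trans ?_ hlow)
    have h1 : (g : ℝ) ≤ g₀ := by exact_mod_cast hgg.le
    have h2 : (h : ℝ) * d ≤ e * g := by exact_mod_cast hhe
    rw [div_le_div_iff₀ (by positivity) (by positivity)]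
    have h4 : (g : ℝ) ^ 3 ≤ (g₀ : ℝ) ^ 3 := by gcongr
    have h5 : (1 : ℝ) ≤ t ^ 60 := one_le_pow₀ ht1
    have h6 : (e : ℝ) ≤ e ^ 2 := le_self_pow₀ he' (by norm_num)
    calc (n : ℝ) ^ 2 * h * d * (g ^ 2 * v ^ 3) = n ^ 2 * (h * d) * (g ^ 2 * v ^ 3) := by ring
      _ ≤ n ^ 2 * (e * g) * (g ^ 2 * v ^ 3) := by gcongr
      _ = n ^ 2 * e * v ^ 3 * g ^ 3 * 1 := by ring
      _ ≤ n ^ 2 * e ^ 2 * v ^ 3 * (g₀ : ℝ) ^ 3 * t ^ 60 := by gcongr
      _ = (g₀ : ℝ) ^ 3 * n ^ 2 * (e ^ 2 * (v ^ 3 * t ^ 60)) := by ring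
  -- now `g` is large
  have hasy := hg₀ g hgg
  have hg2 : (2 : ℝ) ≤ g := by
    have h1 : (g₀ : ℝ) ≤ g := by exact_mod_cast hgg
    linarith
  obtain ⟨Λ, hΛ⟩ : ∃ Λ : ℝ, Λ = Real.log (2 * g) := ⟨_, rfl⟩
  obtain ⟨L, hL⟩ : ∃ L : ℝ, L = Real.log ((Gc * m * n : ℕ) : ℝ) := ⟨_, rfl⟩
  rw [← hL] at hA hP
  have hΛ1 : 1 ≤ Λ := by
    rw [hΛ, Real.le_log_iff_exp_le (by linarith)]
    have h1 := Real.exp_one_lt_d9
    linarith
  have hGc0 : 1 ≤ Gc := by omega
  have hGc' : (1 : ℝ) ≤ Gc := by exact_mod_cast hGc0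
  have hL' : L = Real.log Gc + 6 * Real.log v + Real.log n := by
    rw [hL, Nat.cast_mul, Nat.cast_mul, Real.log_mul (by positivity) (by positivity),
      Real.log_mul (by positivity) (by positivity), hlogm]
  have hlogn0 : 0 ≤ Real.log n := Real.log_nonneg hn'
  have hlogv0 : 0 ≤ Real.log v := Real.log_nonneg hv1
  have hL0 : 0 ≤ L := by
    rw [hL']
    have := Real.log_nonneg hGc'
    positivity
  have hlogg : Real.log g ≤ Λ := by
    rw [hΛ]
    apply Real.log_le_log (by linarith)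
    linarith
  have hlogn : Real.log n ≤ 6 * Real.log v + Λ := by
    have h1 : (n : ℝ) ≤ m * g := by exact_mod_cast hng.le
    have h2 : Real.log n ≤ Real.log (m * g) := Real.log_le_log (by linarith) h1
    rw [Real.log_mul (by positivity) (by positivity), hlogm] at h2
    linarith
  have hlogd : Real.log d ≤ Λ := by
    rw [hΛ]
    apply Real.log_le_log (by linarith)
    have h1 : (d : ℝ) ≤ g := by exact_mod_cast hdg
    linarith
  have hlogG : ∀ b : ℕ, Gc ≤ (2 * g) ^ b → Real.log Gc ≤ b * Λ := by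
    intro b h1
    have h2 : (Gc : ℝ) ≤ (2 * g) ^ b := by exact_mod_cast h1
    calc Real.log Gc ≤ Real.log ((2 * g) ^ b) := Real.log_le_log (by linarith) h2
      _ = b * Λ := by rw [Real.log_pow, hΛ]
  rcases lt_or_ge (160 * Λ * h) (d : ℝ) with ha | ha
  · have h1 : L ≤ (2 * g + 1) * Real.log (2 * g) + 12 * v := by
      rw [← hΛ, hL']
      have h2 := hlogG (2 * g) hGc2
      push_cast at h2
      have h3 := Real.log_le_sub_one_of_pos hv0
      linarith
    have h2 := caseA g m d h n v L N hv1 hmv hn hh hhd hdg h1 hL0 (by rw [← hΛ]; exact ha) hP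
    refine h2.trans (le_trans ?_ hlow)
    rw [div_le_div_iff₀ (by positivity) (by positivity), one_mul]
    have h3 : (g : ℝ) ^ 2 ≤ (g : ℝ) ^ 16 := pow_le_pow_right₀ hg' (by norm_num)
    calc (g : ℝ) ^ 2 * v ^ 3 ≤ (g : ℝ) ^ 16 * v ^ 3 := by gcongr
      _ ≤ (g₀ : ℝ) ^ 3 * (n : ℝ) ^ 2 * ((g : ℝ) ^ 16 * v ^ 3) := by
          refine le_mul_of_one_le_left (by positivity) ?_
          exact one_le_mul_of_one_le_of_one_le hC1 hn2
  · -- the bound for the order
    have hlogd0 : 0 ≤ Real.log d := Real.log_nonneg hd'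
    have hlogGc : Real.log Gc ≤ 160 * Λ ^ 3 + Λ := by
      obtain ⟨b, hbd⟩ : ∃ b : ℕ, b = ⌊160 * Λ * Real.log d⌋₊ + 1 := ⟨_, rfl⟩
      have hb1 : 160 * Λ * Real.log d < b := by
        rw [hbd]
        push_cast
        exact Nat.lt_floor_add_one _
      have hb2 : (b : ℝ) ≤ 160 * Λ * Real.log d + 1 := by
        rw [hbd]
        push_cast
        have h1 := Nat.floor_le (show 0 ≤ 160 * Λ * Real.log d by positivity)
        linarith
      have hb3 : (d : ℝ) * (1 - (h : ℝ) / d) ^ b < 1 := by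
        have h1 : 1 - (h : ℝ) / d ≤ Real.exp (-((h : ℝ) / d)) := by
          have h2 := Real.add_one_le_exp (-((h : ℝ) / d))
          linarith
        have h2 : 0 ≤ 1 - (h : ℝ) / d := by
          rw [sub_nonneg, div_le_one (by linarith)]
          exact_mod_cast hhd
        have h3 : (1 - (h : ℝ) / d) ^ b ≤ Real.exp (-(b * ((h : ℝ) / d))) := by
          calc (1 - (h : ℝ) / d) ^ b ≤ (Real.exp (-((h : ℝ) / d))) ^ b :=
                pow_le_pow_left₀ h2 h1 b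
            _ = _ := by
                rw [← Real.exp_nat_mul]
                congr 1
                ring
        have h4 : Real.log d < b * ((h : ℝ) / d) := by
          have h5 : 1 / (160 * Λ) ≤ (h : ℝ) / d := by
            rw [div_le_div_iff₀ (by positivity) (by linarith)]
            linarith
          calc Real.log d = (160 * Λ * Real.log d) * (1 / (160 * Λ)) := by
                field_simp
            _ < b * (1 / (160 * Λ)) := mul_lt_mul_of_pos_right hb1 (by positivity)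
            _ ≤ b * ((h : ℝ) / d) := mul_le_mul_of_nonneg_left h5 (Nat.cast_nonneg _)
        calc (d : ℝ) * (1 - (h : ℝ) / d) ^ b ≤ d * Real.exp (-(b * ((h : ℝ) / d))) :=
              mul_le_mul_of_nonneg_left h3 (by linarith)
          _ = Real.exp (Real.log d - b * ((h : ℝ) / d)) := by
              rw [sub_eq_add_neg, Real.exp_add, Real.exp_log (by linarith)]
          _ < 1 := by
              rw [Real.exp_lt_one_iff]
              linarith
      have h1 := hlogG b (hb b hb3)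
      calc Real.log Gc ≤ b * Λ := h1
        _ ≤ (160 * Λ * Real.log d + 1) * Λ := by gcongr
        _ ≤ (160 * Λ * Λ + 1) * Λ := by gcongr
        _ = 160 * Λ ^ 3 + Λ := by ring
    have hLb : L ≤ 510 * Λ ^ 3 * v := by
      have h1 : Λ ≤ Λ ^ 3 := le_self_pow₀ hΛ1 (by norm_num)
      have h2 : 1 ≤ Λ ^ 3 := one_le_pow₀ hΛ1
      have h3 := logv hv1
      have h4 : Λ ^ 3 ≤ Λ ^ 3 * v := le_mul_of_one_le_right (by positivity) hv1
      have h5 : v ≤ Λ ^ 3 * v := le_mul_of_one_le_left (by positivity) h2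
      rw [hL']
      linarith
    rw [← ht, ← hΛ] at hasy
    have h1 := caseB g m d h e c n t v Λ L N hΛ1 hasy hgt hv1 hmv hn hh hhd he hhe hc hc3 hdg hL0
      hLb ha hA hK
    have h2 : 0 ≤ (n : ℝ) ^ 2 * (d / g) * (1 / (t ^ 24 * v ^ 3)) := by positivity
    calc N ≤ (n : ℝ) ^ 2 * (d / g) * (1 / (t ^ 24 * v ^ 3)) := h1
      _ ≤ (g₀ : ℝ) ^ 3 * ((n : ℝ) ^ 2 * (d / g) * (1 / (t ^ 24 * v ^ 3))) :=
          le_mul_of_one_le_left h2 hC1
      _ = _ := by ring

end Pool.Agent.Y304.KN
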