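import Mathlib
import Pool.Agent.Y1.KN.Stm4

/-!
# The product of a set with a cyclic group (task KN-PROD)
-/

set_option linter.unusedSectionVars false
set_option linter.unusedVariables false

namespace Pool.Agent.Y304.KN

open Finset Module Pool.Agent.TH170.MF Pool.Agent.TH170.QC Pool.Agent.TH170.QE
open Pool.Agent.Y1.KN

section px

variable {G X : Type} [Group G] [MulAction G X] {m : ℕ}

/-- functions of the first coordinate -/
def ph (X : Type) (m : ℕ) : (X → ℚ) →ₗ[ℚ] (PX X m → ℚ) :=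
  LinearMap.funLeft ℚ ℚ (fun x : PX X m => x.fst)

theorem ph_apply (u : X → ℚ) (x : PX X m) : ph X m u x = u x.fst := rfl

/-- restriction to the second coordinate `0` -/
def ps (X : Type) (m : ℕ) : (PX X m → ℚ) →ₗ[ℚ] (X → ℚ) :=
  LinearMap.funLeft ℚ ℚ (fun x : X => (⟨x, 0⟩ : PX X m))

theorem ps_apply (v : PX X m → ℚ) (x : X) : ps X m v x = v ⟨x, 0⟩ := rfl

theorem ps_ph (u : X → ℚ) : ps X m (ph X m u) = u := rfl

theorem ph_inj : Function.Injective (ph X m) := fun u v h => by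
  rw [← ps_ph (m := m) u, ← ps_ph (m := m) v, h]

theorem lift_eq (S : Submodule ℚ (X → ℚ)) : liftPX m S = S.map (ph X m) := by
  ext v
  rw [Submodule.mem_map]
  constructor
  · rintro ⟨u, hu, h⟩
    exact ⟨u, hu, funext fun x => (h x).symm⟩
  · rintro ⟨u, hu, rfl⟩
    exact ⟨u, hu, fun x => rfl⟩

theorem mem_lift (S : Submodule ℚ (X → ℚ)) (v : PX X m → ℚ) :
    v ∈ liftPX m S ↔ ∃ u ∈ S, ph X m u = v := by
  rw [lift_eq, Submodule.mem_map]

theorem ph_mem_lift (S : Submodule ℚ (X → ℚ)) (u : X → ℚ) : ph X m u ∈ liftPX m S ↔ u ∈ S := by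
  rw [mem_lift]
  constructor
  · rintro ⟨u', hu', h⟩
    rw [← ph_inj h]
    exact hu'
  · intro h
    exact ⟨u, h, rfl⟩

theorem finrank_lift (S : Submodule ℚ (X → ℚ)) : finrank ℚ (liftPX m S) = finrank ℚ S := by
  rw [lift_eq]
  exact (LinearEquiv.finrank_eq (Submodule.equivMapOfInjective (ph X m) ph_inj S)).symm

theorem ph_smul (u : X → ℚ) (γ : G × Multiplicative (ZMod m)) :
    (fun x : PX X m => ph X m u (γ • x)) = ph X m (fun x => u (γ.1 • x)) := rfl

theorem inv_lift {S : Submodule ℚ (X → ℚ)} (hS : Invariant G S) :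
    Invariant (G × Multiplicative (ZMod m)) (liftPX m S) := by
  intro γ v hv
  obtain ⟨u, hu, rfl⟩ := (mem_lift S v).1 hv
  rw [ph_smul, ph_mem_lift]
  exact hS γ.1 u hu

theorem min_lift {c : G} {S : Submodule ℚ (X → ℚ)} (hS : S ∈ MinInv G (fun x : X => c • x)) :
    liftPX m S ∈ MinInv (G × Multiplicative (ZMod m))
      (fun x : PX X m => ((c, 1) : G × Multiplicative (ZMod m)) • x) := by
  obtain ⟨h0, h1, h2, h3⟩ := hS
  refine ⟨?_, inv_lift h1, ?_, ?_⟩
  · intro h
    apply h0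
    rw [eq_bot_iff]
    intro u hu
    have h4 : ph X m u ∈ liftPX m S := (ph_mem_lift S u).2 hu
    rw [h, Submodule.mem_bot] at h4
    rw [Submodule.mem_bot]
    apply ph_inj (m := m)
    rw [h4, map_zero]
  · intro v hv x
    obtain ⟨u, hu, rfl⟩ := (mem_lift S v).1 hv
    exact h2 u hu x.fst
  · intro S' hS' hle
    have hT : Invariant G (S'.comap (ph X m)) := by
      intro γ u hu
      have h4 := hS' (γ, 1) _ hu
      rw [ph_smul] at h4
      exact h4
    have hTS : S'.comap (ph X m) ≤ S := fun u hu => (ph_mem_lift S u).1 (hle hu)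
    rcases h3 _ hT hTS with h | h
    · left
      rw [eq_bot_iff]
      intro v hv
      obtain ⟨u, hu, rfl⟩ := (mem_lift S v).1 (hle hv)
      have h4 : u ∈ S'.comap (ph X m) := hv
      rw [h, Submodule.mem_bot] at h4
      rw [h4, map_zero]
      exact Submodule.zero_mem _
    · right
      refine le_antisymm hle fun v hv => ?_
      obtain ⟨u, hu, rfl⟩ := (mem_lift S v).1 hv
      rw [← h] at hu
      exact hu

theorem fixed_lift (x₀ : X) (S : Submodule ℚ (X → ℚ)) :
    fixedPart (G × Multiplicative (ZMod m)) (⟨x₀, 0⟩ : PX X m) (liftPX m S) =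
      liftPX m (fixedPart G x₀ S) := by
  ext v
  constructor
  · rintro ⟨hv, hf⟩
    obtain ⟨u, hu, rfl⟩ := (mem_lift S v).1 hv
    rw [ph_mem_lift]
    refine ⟨hu, fun h hh x => ?_⟩
    have h1 := hf (h, 1) (PX.ext' hh (add_zero _)) ⟨x, 0⟩
    exact h1
  · intro hv
    obtain ⟨u, hu, rfl⟩ := (mem_lift _ v).1 hv
    refine ⟨(ph_mem_lift S u).2 hu.1, fun h hh x => ?_⟩
    have h1 : h.1 • x₀ = x₀ := congrArg PX.fst hh
    exact hu.2 h.1 h1 x.fst

/-- the space and its lift -/
noncomputable def Ee (m : ℕ) (S : Submodule ℚ (X → ℚ)) : S ≃ₗ[ℚ] liftPX m S where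
  toFun u := ⟨ph X m u, (ph_mem_lift S _).2 u.2⟩
  invFun v := ⟨ps X m v, by
    obtain ⟨u, hu, h⟩ := (mem_lift S _).1 v.2
    rw [← h, ps_ph]
    exact hu⟩
  map_add' u v := by
    apply Subtype.ext
    exact map_add (ph X m) _ _
  map_smul' r u := by
    apply Subtype.ext
    exact map_smul (ph X m) _ _
  left_inv u := rfl
  right_inv v := by
    apply Subtype.ext
    obtain ⟨u, hu, h⟩ := (mem_lift S _).1 v.2
    show ph X m (ps X m v) = v
    rw [← h, ps_ph]

theorem Ee_coe (S : Submodule ℚ (X → ℚ)) (u : S) : ((Ee m S u : liftPX m S) : PX X m → ℚ) =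
    ph X m u := rfl

theorem Ee_symm_coe (S : Submodule ℚ (X → ℚ)) (v : liftPX m S) :
    ((Ee m S).symm v : X → ℚ) = ps X m v := rfl

theorem ph_ps {S : Submodule ℚ (X → ℚ)} {v : PX X m → ℚ} (hv : v ∈ liftPX m S) :
    ph X m (ps X m v) = v := by
  obtain ⟨u, hu, h⟩ := (mem_lift S _).1 hv
  rw [← h, ps_ph]

/-- transfer of homomorphisms -/
noncomputable def Ps (m : ℕ) (S : Submodule ℚ (X → ℚ)) :
    (S →ₗ[ℚ] (X → ℚ)) →ₗ[ℚ] (liftPX m S →ₗ[ℚ] (PX X m → ℚ)) where
  toFun A := (ph X m ∘ₗ A) ∘ₗ ((Ee m S).symm : liftPX m S →ₗ[ℚ] S)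
  map_add' A B := by
    refine LinearMap.ext fun v => ?_
    simp only [LinearMap.comp_apply, LinearMap.add_apply, map_add]
  map_smul' r A := by
    refine LinearMap.ext fun v => ?_
    simp only [LinearMap.comp_apply, LinearMap.smul_apply, map_smul, RingHom.id_apply]

theorem Ps_apply (S : Submodule ℚ (X → ℚ)) (A : S →ₗ[ℚ] (X → ℚ)) (v : liftPX m S) :
    Ps m S A v = ph X m (A ((Ee m S).symm v)) := rfl

theorem Ps_inj (S : Submodule ℚ (X → ℚ)) : Function.Injective (Ps (X := X) m S) := by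
  intro A B h
  refine LinearMap.ext fun s => ?_
  have h1 := congrArg (fun F => F (Ee m S s)) h
  simp only [Ps_apply, LinearEquiv.symm_apply_apply] at h1
  exact ph_inj h1

theorem homs_lift (S : Submodule ℚ (X → ℚ)) :
    homs (G × Multiplicative (ZMod m)) (liftPX m S) (liftPX m S) = (homs G S S).map (Ps m S) := by
  ext B
  rw [Submodule.mem_map]
  constructor
  · rintro ⟨h1, h2⟩
    refine ⟨(ps X m ∘ₗ B) ∘ₗ ((Ee m S) : S →ₗ[ℚ] liftPX m S), ⟨fun s => ?_, ?_⟩, ?_⟩
    · have h3 := h1 (Ee m S s)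
      have h4 := ph_ps h3
      rw [← h4] at h3
      exact (ph_mem_lift S _).1 h3
    · intro γ s t hst x
      have h3 := h2 (γ, 1) (Ee m S s) (Ee m S t) (fun y => hst y.fst) ⟨x, 0⟩
      have h4 : ((γ, 1) : G × Multiplicative (ZMod m)) • (⟨x, 0⟩ : PX X m) = ⟨γ • x, 0⟩ :=
        PX.ext' rfl (add_zero _)
      rw [h4] at h3
      exact h3
    · refine LinearMap.ext fun v => ?_
      rw [Ps_apply]
      show ph X m (ps X m (B (Ee m S ((Ee m S).symm v)))) = B v
      rw [LinearEquiv.apply_symm_apply]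
      exact ph_ps (h1 v)
  · rintro ⟨A, ⟨h1, h2⟩, rfl⟩
    refine ⟨fun v => ?_, ?_⟩
    · rw [Ps_apply, ph_mem_lift]
      exact h1 _
    · intro γ s t hst x
      rw [Ps_apply, Ps_apply]
      refine h2 γ.1 _ _ (fun y => ?_) x.fst
      have h3 := hst ⟨y, 0⟩
      rw [Ee_symm_coe, Ee_symm_coe, ps_apply, ps_apply, h3]
      have h4 := congrFun (ph_ps s.2) (γ • (⟨y, 0⟩ : PX X m))
      rw [← h4]
      rfl

theorem edim_lift (S : Submodule ℚ (X → ℚ)) :
    edim (G × Multiplicative (ZMod m)) (liftPX m S) = edim G S := by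
  unfold edim
  rw [homs_lift (G := G)]
  exact (LinearEquiv.finrank_eq (Submodule.equivMapOfInjective (Ps m S) (Ps_inj S) _)).symm

theorem trans_lift [MulAction.IsPretransitive G X] :
    MulAction.IsPretransitive (G × Multiplicative (ZMod m)) (PX X m) := by
  refine ⟨fun x y => ?_⟩
  obtain ⟨γ, hγ⟩ := MulAction.exists_smul_eq G x.fst y.fst
  refine ⟨(γ, Multiplicative.ofAdd (y.snd - x.snd)), PX.ext' hγ ?_⟩
  show (y.snd - x.snd) + x.snd = y.snd
  ring

end px

section kil

variable {G X : Type} [Group G] [Fintype G] [MulAction G X] {m : ℕ} [NeZero m]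

theorem mk_out (C : ConjClasses G) : ConjClasses.mk C.out = C := Quotient.out_eq C

theorem mk_pair {γ δ : G} (h : ConjClasses.mk γ = ConjClasses.mk δ)
    (t : Multiplicative (ZMod m)) :
    ConjClasses.mk ((γ, t) : G × Multiplicative (ZMod m)) = ConjClasses.mk (δ, t) := by
  rw [ConjClasses.mk_eq_mk_iff_isConj, isConj_iff] at h ⊢
  obtain ⟨c, hc⟩ := h
  refine ⟨(c, 1), ?_⟩
  rw [← hc]
  refine Prod.ext rfl ?_
  show 1 * t * 1⁻¹ = t
  simp

/-- sum over the second coordinate -/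
noncomputable def push (m : ℕ) [NeZero m]
    (a : ConjClasses (G × Multiplicative (ZMod m)) → ℚ) : ConjClasses G → ℚ :=
  fun C => ∑ t : Multiplicative (ZMod m), a (ConjClasses.mk (C.out, t))

theorem push_mk (a : ConjClasses (G × Multiplicative (ZMod m)) → ℚ) (γ : G) :
    push m a (ConjClasses.mk γ) = ∑ t : Multiplicative (ZMod m), a (ConjClasses.mk (γ, t)) := by
  unfold push
  exact sum_congr rfl fun t _ => by rw [mk_pair (mk_out (ConjClasses.mk γ)) t]

theorem killers_lift (S : Submodule ℚ (X → ℚ))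
    (a : ConjClasses (G × Multiplicative (ZMod m)) → ℚ) :
    a ∈ killers (G × Multiplicative (ZMod m)) (liftPX m S : Set (PX X m → ℚ)) ↔
      push m a ∈ killers G (S : Set (X → ℚ)) := by
  have key : ∀ (u : X → ℚ) (x : PX X m),
      ∑ γ : G × Multiplicative (ZMod m), a (ConjClasses.mk γ) * ph X m u (γ • x) =
        ∑ γ : G, push m a (ConjClasses.mk γ) * u (γ • x.fst) := by
    intro u x
    rw [Fintype.sum_prod_type]
    refine sum_congr rfl fun γ _ => ?_
    rw [push_mk, sum_mul]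
    exact sum_congr rfl fun t _ => rfl
  constructor
  · intro h u hu x
    have h1 := h (ph X m u) ((ph_mem_lift S u).2 hu) ⟨x, 0⟩
    rw [key] at h1
    exact h1
  · intro h v hv x
    obtain ⟨u, hu, rfl⟩ := (mem_lift S v).1 hv
    rw [key]
    exact h u hu x.fst

end kil

theorem prod : Pool.Agent.Y1.KN.P_prod := by
  intro G X _ _ _ _ _ _ c m _ x₀ S hS
  refine ⟨trans_lift, min_lift hS, finrank_lift S, edim_lift S, ?_, ?_⟩
  · rw [fixed_lift, finrank_lift]
  · intro S' _ hK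
    ext a
    rw [killers_lift, killers_lift, hK]

end Pool.Agent.Y304.KN
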